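import Pool.Agent.KS6_20.CP.Main

/-!
# How fast the ratio `π^c(G □ G) / π^c(G)²` can grow

For every `s ≥ 1` there is a connected graph `G` with cop pebbling number exactly `n = 2 ^ s` for
which the Cartesian square needs at least `(3 / 14) √(log₂ n) n²` cops.

The definitions of the game are those of the starting file `Pool/Agent/Q293/CP/Game.lean` (library):
`IsTurn G C f` (the turn `f` of the cops is legal in the configuration `C`), `after C f` (the
configuration after the turn), `CopsWin G C r` (the cops, whose turn it is, can force the capture of
the robber at `r`) and `copNumber G` (the cop pebbling number).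
-/

set_option autoImplicit false

namespace Pool.Agent.Results.MP_d8b757_co.SquareRootOfLogarithm

open Pool.Agent.Q293.CP SimpleGraph

/-- For every `s ≥ 1` there is a finite connected graph `G` with cop pebbling number `n = 2 ^ s` whose
Cartesian square has cop pebbling number at least `(3 / 14) √s n²`, where `s = log₂ n`; in
particular for every constant `a` the bound `a n²` fails for all `s > (14 a / 3)²`. -/
theorem result : ∀ s : ℕ, 1 ≤ s →
    ∃ (V : Type) (_ : Fintype V) (G : SimpleGraph V), G.Connected ∧ copNumber G = 2 ^ s ∧
      3 / 14 * Real.sqrt (Real.logb 2 (copNumber G)) * (copNumber G : ℝ) ^ 2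
        ≤ (copNumber (G □ G) : ℝ) := by
  intro s hs
  obtain ⟨V, hV, G, hc, h1, h2⟩ := Pool.Agent.KS6_20.CP.main s hs
  refine ⟨V, hV, G, hc, h1, ?_⟩
  rw [h1]
  push_cast
  rw [Real.logb_pow, Real.logb_self_eq_one (by norm_num), mul_one, ← pow_mul, mul_comm s 2, pow_mul]
  norm_num at h2 ⊢
  exact h2

end Pool.Agent.Results.MP_d8b757_co.SquareRootOfLogarithm
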